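import Pool.Agent.J6H81.TuranLimit.Fin

/-!
# The limit of `C(r+R, R) (1 - π(K_{r+R}^r))` as `r → ∞` exists, for every gap `R`

The notions are those of `Pool.Agent.H120R2.CliqueDefs`: `ex n r m = ex(n, K_m^r)` and
`turanDensity r m = π(K_m^r)`, the limit of `ex n r m / C(n, r)`.

Let `t(r+R, r) = 1 - π(K_{r+R}^r)`, the least density of `r`-sets which meet every `(r+R)`-set in a
member, and `B(r) = C(r+R, R) t(r+R, r) ≥ 1`.

Outline.  (1) Let `k` be large with `B(k)` close to the lower limit `m`.  Give every vertex a random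
vector of `F_q^d`, with `d/q` close to `l = (1 + θ) k`.  The unique linear dependency of `d + 1`
vertices has about `l`, hence almost surely at least `k + R`, zeros.  On the set `Z` of zeros put
the system of `(|Z| - R)`-sets obtained from the one for `k` (`t(j+R, j) ≤ t(k+R, k)` for `j ≥ k`).
The `(d+1-R)`-subsets which arise know the dependency and have normalised density at most
`(1 + θ)^R B(k) + o(1)`; the exceptional sets, a proportion `exp(-c k)`, are treated by the
recursion over two parts of sizes `1 - 1/k` and `1/k` (the partial determinant codes and the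
recursion are `Pool.Agent.W724.TG`).  So `B(r) ≤ m + ε` for all large `r`.  (2) A system of
`r`-sets on `n ≥ C r` points gives, by a random map of an arbitrarily large vertex set to the `n`
points, a system of `k`-sets, `k = (1 + 4 ε) r`: a `k`-set is chosen if the images of the points
which are alone in their fibre form a member; a `(k+R)`-set whose image has few points is a rare
exception which all its subsets see.
-/

set_option autoImplicit false

open Filter Topology

namespace Pool.Agent.Results.MP_a4d830_co.FixedGapLimit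

open Pool.Agent.H120R2.Clique Pool.Agent.J6H81.TuranLimit Pool.Agent.H688R3.TuranGen

/-- For every gap `R ≥ 1` there is a real number `μ ≥ 1` with the following two properties.
(1) All limits `π(K_{r+R}^r)` of `ex(n, K_{r+R}^r) / C(n, r)` exist, and
`C(r+R, R) (1 - π(K_{r+R}^r)) → μ` as `r → ∞`.
(2) For every `ε > 0` there are `C` and `r₀` such that
`|C(r+R, R) (1 - ex(n, K_{r+R}^r) / C(n, r)) - μ| ≤ ε` for all `r ≥ r₀` and all `n ≥ C r`. -/
theorem result : ∀ R : ℕ, 1 ≤ R → ∃ μ : ℝ, 1 ≤ μ ∧
    (∀ r : ℕ, Tendsto (fun n : ℕ => (ex n r (r + R) : ℝ) / (n.choose r : ℝ)) atTop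
      (𝓝 (turanDensity r (r + R)))) ∧
    Tendsto (fun r : ℕ => ((r + R).choose R : ℝ) * (1 - turanDensity r (r + R))) atTop (𝓝 μ) ∧
    ∀ ε : ℝ, 0 < ε → ∃ C r₀ : ℕ, ∀ r : ℕ, r₀ ≤ r → ∀ n : ℕ, C * r ≤ n →
      |((r + R).choose R : ℝ) * (1 - (ex n r (r + R) : ℝ) / (n.choose r : ℝ)) - μ| ≤ ε := by
  intro R hR
  obtain ⟨μ, hμ⟩ := limit_exists hR
  refine ⟨μ, ge_of_tendsto' hμ fun k => one_le_B R k, fun r => ratio_tendsto r (r + R), hμ, ?_⟩
  intro ε hε
  obtain ⟨C, r₀, h⟩ := fin_limit hR hμ hε
  refine ⟨max C 1, r₀, fun r hr n hn => ?_⟩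
  have h1 := h r hr n (le_trans (Nat.mul_le_mul_right r (le_max_left _ _)) hn)
  have hrn : r ≤ n := by
    have := le_trans (Nat.mul_le_mul_right r (le_max_right C 1)) hn
    omega
  have h2 := choose_pos' hrn
  have h3 : c r (r + R) n / (n.choose r : ℝ) = 1 - (ex n r (r + R) : ℝ) / (n.choose r : ℝ) := by
    unfold c
    rw [sub_div, div_self h2.ne']
  unfold b at h1
  rwa [h3] at h1

end Pool.Agent.Results.MP_a4d830_co.FixedGapLimit
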