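import Pool.Agent.J6H12.TD.Final

/-!
# De Caen's bound for `π(K_{r+a}^r)` when `a + 1` does not divide `r`

The notions are those of `Pool.Agent.H120R2.CliqueDefs`: `ex n r m = ex(n, K_m^r)` and
`turanDensity r m = π(K_m^r)`, the limit of `ex n r m / C(n, r)`.

De Caen's inequality is `C(r+a-1, a) (1 - π(K_{r+a}^r)) ≥ 1`.  For a fixed gap `a` and large `r` we
gain the factor `1 + j (a + 1 - j) / (a r) + O(1/r²)`, where `j` is the residue of `r` modulo
`a + 1`.  For `a = 1` and odd `r` this is the leading term `1 + 1/r` of the bound of Chung and Lu.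

Outline.  Let `T` be the family of non-edges, `k = r + a`, and let a clique be a set of vertices
without a member of `T`; no `k`-set is a clique.  De Caen's recursion for the densities of the
cliques starts with the numbers `c(S)` of the cliques of size `k - 1` in the `k`-sets `S`; it uses
`c (r - c) ≥ 0` and is sharp only if `c ∈ {0, r}`, and `c = r` means that `S` contains only one
member of `T`.  In a set `Z` of `k + 1` vertices the complements of the members of `T` are sets of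
size `a + 1` which cover `Z`.  For `z ∈ Z` let `U(z)` be the union of those which contain `z`; then
`c(Z - z) = k + 1 - |U(z)|`.  If the sets are added one by one, then a set with `m` new points adds
at least `m (a + 1 - m)` to the sum of the `|U(z)| - (a + 1)`, and `j (a + 1 - j)` is subadditive
modulo `a + 1`; so this sum is at least `φ = j (a + 1 - j)` for the residue `j` of `k + 1`, and this
gives `∑ (c(Z - z) + φ) (r - c(Z - z)) ≥ r φ` for all `Z`.  The other steps of the recursion are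
those of de Caen (`Pool.Agent.TH440.DC.Chain`).
-/

set_option autoImplicit false

open Filter Topology

namespace Pool.Agent.Results.MP_a4d830_co.GapDivisibility

open Pool.Agent.H120R2.Clique

/-- `j (a + 1 - j)`, where `j` is the residue of `r` modulo `a + 1` -/
noncomputable def excess (a r : ℕ) : ℝ :=
  ((r % (a + 1) : ℕ) : ℝ) * ((a : ℝ) + 1 - ((r % (a + 1) : ℕ) : ℝ))

theorem excess_eq (a r : ℕ) : excess a r = (Pool.Agent.J6H12.TD.phi a r : ℝ) := by
  unfold excess Pool.Agent.J6H12.TD.phi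
  have h : r % (a + 1) < a + 1 := Nat.mod_lt _ (Nat.succ_pos a)
  rw [Nat.cast_mul, Nat.cast_sub h.le]
  push_cast
  ring

theorem excess_ge {a r : ℕ} (h : ¬ (a + 1) ∣ r) : (a : ℝ) ≤ excess a r := by
  unfold excess
  have h1 : r % (a + 1) < a + 1 := Nat.mod_lt _ (Nat.succ_pos a)
  have h2 : 1 ≤ r % (a + 1) := by
    by_contra hc
    exact h (Nat.dvd_of_mod_eq_zero (by omega))
  set j := r % (a + 1) with hj
  have h3 : (1 : ℝ) ≤ (j : ℝ) := by exact_mod_cast h2
  have h4 : (j : ℝ) ≤ a := by exact_mod_cast (by omega : j ≤ a)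
  nlinarith

/-- (1) For all `a ≥ 1` and `r > a (a + 1)`, with `φ = j (a + 1 - j)` and `j = r mod (a + 1)`:
`C(r+a-1, a) (1 - π(K_{r+a}^r)) ≥ 1 + φ (r - a (a + 1)) / (a (r + a + 1) (r + φ - a))`.
(2) `φ ≥ a` if `a + 1` does not divide `r`.
(3) For all `a ≥ 1` and `ε > 0` there is `r₀` such that
`C(r+a-1, a) (1 - π(K_{r+a}^r)) ≥ 1 + (1 - ε) φ / (a r)` for all `r ≥ r₀`. -/
theorem result :
    (∀ a r : ℕ, 1 ≤ a → a * (a + 1) < r →
      Tendsto (fun n : ℕ => (ex n r (r + a) : ℝ) / (n.choose r : ℝ)) atTop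
        (𝓝 (turanDensity r (r + a))) ∧
      1 + excess a r * ((r : ℝ) - a * (a + 1)) /
          ((a : ℝ) * ((r : ℝ) + a + 1) * ((r : ℝ) + excess a r - a)) ≤
        ((r + a - 1).choose a : ℝ) * (1 - turanDensity r (r + a))) ∧
    (∀ a r : ℕ, ¬ (a + 1) ∣ r → (a : ℝ) ≤ excess a r) ∧
    ∀ a : ℕ, 1 ≤ a → ∀ ε : ℝ, 0 < ε → ∃ r₀ : ℕ, ∀ r : ℕ, r₀ ≤ r →
      1 + (1 - ε) * (excess a r / ((a : ℝ) * r)) ≤
        ((r + a - 1).choose a : ℝ) * (1 - turanDensity r (r + a)) := by
  have key : ∀ a r : ℕ, 1 ≤ a → a * (a + 1) < r →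
      1 + excess a r * ((r : ℝ) - a * (a + 1)) /
          ((a : ℝ) * ((r : ℝ) + a + 1) * ((r : ℝ) + excess a r - a)) ≤
        ((r + a - 1).choose a : ℝ) * (1 - turanDensity r (r + a)) := by
    intro a r ha hr
    rw [excess_eq]
    exact Pool.Agent.J6H12.TD.density ha hr
  refine ⟨fun a r ha hr => ⟨ratio_tendsto r (r + a), key a r ha hr⟩,
    fun a r h => excess_ge h, ?_⟩
  intro a ha ε hε
  have ha' : (1 : ℝ) ≤ a := by exact_mod_cast ha
  -- φ ≤ (a + 1)²
  obtain ⟨N, hN⟩ := exists_nat_gt ((3 * ((a : ℝ) + 1) ^ 2) / ε)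
  refine ⟨max N (a * (a + 1) + 1), fun r hr => ?_⟩
  have hr1 : N ≤ r := le_trans (le_max_left _ _) hr
  have hr2 : a * (a + 1) < r := lt_of_lt_of_le (Nat.lt_succ_self _) (le_trans (le_max_right _ _) hr)
  refine le_trans ?_ (key a r ha hr2)
  have hφ0 : 0 ≤ excess a r := by
    rw [excess_eq]; positivity
  have hφ1 : excess a r ≤ ((a : ℝ) + 1) ^ 2 := by
    unfold excess
    have h1 : r % (a + 1) < a + 1 := Nat.mod_lt _ (Nat.succ_pos a)
    have h3 : ((r % (a + 1) : ℕ) : ℝ) ≤ (a : ℝ) + 1 := by exact_mod_cast h1.le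
    have h4 : (0 : ℝ) ≤ ((r % (a + 1) : ℕ) : ℝ) := by positivity
    nlinarith
  set φ := excess a r with hφ
  have hrR : (3 * ((a : ℝ) + 1) ^ 2) < ε * r := by
    have h1 : (3 * ((a : ℝ) + 1) ^ 2) / ε < r := lt_of_lt_of_le hN (by exact_mod_cast hr1)
    rw [div_lt_iff₀ hε] at h1
    linarith
  have hr3 : (a : ℝ) * (a + 1) < r := by exact_mod_cast hr2
  have hrp : (0 : ℝ) < r := by nlinarith
  have hd2 : (0 : ℝ) < (r : ℝ) + φ - a := by nlinarith
  have hd1 : (0 : ℝ) < (r : ℝ) + a + 1 := by positivity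
  have hd : 0 < (a : ℝ) * ((r : ℝ) + a + 1) * ((r : ℝ) + φ - a) := by positivity
  have h5 : (1 - ε) * (((r : ℝ) + a + 1) * ((r : ℝ) + φ - a)) ≤ r * ((r : ℝ) - a * (a + 1)) := by
    by_cases hε1 : 1 ≤ ε
    · have h6 : (1 - ε) * (((r : ℝ) + a + 1) * ((r : ℝ) + φ - a)) ≤ 0 :=
        mul_nonpos_of_nonpos_of_nonneg (by linarith) (by positivity)
      have h7 : 0 ≤ r * ((r : ℝ) - a * (a + 1)) := mul_nonneg hrp.le (by linarith)
      linarith
    · push Not at hε1
      -- (r + a + 1)(r + φ - a) = r² + r (φ + 1) + (a + 1)(φ - a)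
      have e1 : ((r : ℝ) + a + 1) * ((r : ℝ) + φ - a) =
          (r : ℝ) ^ 2 + r * (φ + 1) + (a + 1) * (φ - a) := by ring
      have h8 : ((a : ℝ) + 1) * (φ - a) ≤ r * φ := by
        have : ((a : ℝ) + 1) * φ ≤ r * φ := mul_le_mul_of_nonneg_right (by nlinarith) hφ0
        nlinarith
      have h9 : (1 - ε) * (((r : ℝ) + a + 1) * ((r : ℝ) + φ - a)) ≤
          (r : ℝ) ^ 2 + r * (2 * φ + 1) - ε * (r : ℝ) ^ 2 := by
        rw [e1]
        have h10 : (1 - ε) * ((r : ℝ) * (φ + 1) + (a + 1) * (φ - a)) ≤ r * (2 * φ + 1) := by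
          have h11 : (r : ℝ) * (φ + 1) + (a + 1) * (φ - a) ≤ r * (2 * φ + 1) := by nlinarith
          have h12 : 0 ≤ (r : ℝ) * (2 * φ + 1) := by positivity
          calc (1 - ε) * ((r : ℝ) * (φ + 1) + (a + 1) * (φ - a))
              ≤ (1 - ε) * (r * (2 * φ + 1)) := mul_le_mul_of_nonneg_left h11 (by linarith)
            _ ≤ 1 * (r * (2 * φ + 1)) := mul_le_mul_of_nonneg_right (by linarith) h12
            _ = _ := one_mul _
        nlinarith
      have h13 : (r : ℝ) * (2 * φ + 1 + a * (a + 1)) ≤ r * (ε * r) := by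
        refine mul_le_mul_of_nonneg_left ?_ hrp.le
        nlinarith
      nlinarith
  have h14 : (1 - ε) * (φ / ((a : ℝ) * r)) ≤
      φ * ((r : ℝ) - a * (a + 1)) / ((a : ℝ) * ((r : ℝ) + a + 1) * ((r : ℝ) + φ - a)) := by
    rw [← mul_div_assoc, div_le_div_iff₀ (by positivity) hd]
    have h15 := mul_le_mul_of_nonneg_left h5 (mul_nonneg hφ0 (by linarith : (0 : ℝ) ≤ a))
    nlinarith
  linarith

end Pool.Agent.Results.MP_a4d830_co.GapDivisibility
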