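import Pool.Agent.J6H5.St.Stab

/-!
# The Turán density of `K_5^4` without glued tetrahedra, with stability

We consider 4-graphs `H` without a complete 4-graph on five vertices, and the induced subgraphs `P` on six vertices
`x, a, b, c, d, e` whose edges are the four-element sets that contain `x` and do not contain both of `a` and `b`. So
the link 3-graph of `x` on the other five vertices consists of the two tetrahedra `a c d e` and `b c d e`, which are glued
along the face `c d e`, and the five vertices `a, b, c, d, e` span no edge.

Theorem. There is a constant `C` such that `H` can be changed into one of Giraud's 4-graphs by changing at most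
`C n^4 (11/16 + p + 16/n - d)` edges, where `d` is the density of `H` and `p` is the density of `P` in `H`. So the density
of `H` is at most `11/16 + p + 16/n`. Giraud's 4-graphs have no complete 4-graph on five vertices and no `P`, and their
largest density tends to `11/16`.

Outline: a sum of squares over the types with five, three and one vertices on seven vertices, with 44 squares and integer
coefficients. The kernel checks for each of the 122 classes of 4-graphs without `K_5^4` on six vertices and each of the
`2^20` links of a seventh vertex that the inequality is an equality for the 2404 labelled 4-graphs of Giraud's type on seven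
vertices and has a gap for all others. So all but few sets of seven vertices are of Giraud's type. A suitable independent set
of five vertices and a sixth vertex then define the two parts and the matrix.
-/

set_option autoImplicit false

open Finset Filter Topology

namespace Pool.Agent.Results.MP_a4d830_co.GluedTetrahedraStability

/-- every set of five vertices contains a four-element set which is not a member of `H` -/
def CliqueFree {n : ℕ} (H : Finset (Finset (Fin n))) : Prop :=
  ∀ S : Finset (Fin n), S.card = 5 → ∃ Q ⊆ S, Q.card = 4 ∧ Q ∉ H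

/-- The set `S` has six elements, and for some three different elements `x`, `a`, `b` of `S` the members of `H` inside `S` are
the four-element sets which contain `x` and do not contain both of `a` and `b`. -/
def IsPattern {n : ℕ} (H : Finset (Finset (Fin n))) (S : Finset (Fin n)) : Prop :=
  S.card = 6 ∧ ∃ x ∈ S, ∃ a ∈ S, ∃ b ∈ S, x ≠ a ∧ x ≠ b ∧ a ≠ b ∧
    ∀ Q ⊆ S, Q.card = 4 → (Q ∈ H ↔ x ∈ Q ∧ ¬ (a ∈ Q ∧ b ∈ Q))

/-- the number of the sets of six vertices with the pattern -/
noncomputable def patterns {n : ℕ} (H : Finset (Finset (Fin n))) : ℕ :=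
  Nat.card {S : Finset (Fin n) // IsPattern H S}

/-- The 4-graph of the set `A` and the matrix `D`: its edges are the four-element sets `Q` which have one or three elements in
`A`, and those which have two elements in `A` and for which an odd number of the four pairs `(x, y)` with `x` in `Q ∩ A` and
`y` in `Q \ A` is marked by `D`. -/
def giraud {n : ℕ} (A : Finset (Fin n)) (D : Fin n → Fin n → Bool) : Finset (Finset (Fin n)) :=
  (powersetCard 4 univ).filter fun Q => (Q ∩ A).card = 1 ∨ (Q ∩ A).card = 3 ∨
    ((Q ∩ A).card = 2 ∧ Odd (((Q ∩ A) ×ˢ (Q \ A)).filter fun p => D p.1 p.2 = true).card)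

/-- the largest number of edges of a 4-graph on `n` vertices without a complete 4-graph on five vertices and with at most
`δ n ^ 6` sets of six vertices with the pattern -/
noncomputable def largest (δ : ℝ) (n : ℕ) : ℕ :=
  sSup {m : ℕ | ∃ H : Finset (Finset (Fin n)), H ⊆ powersetCard 4 univ ∧ CliqueFree H ∧
    (patterns H : ℝ) ≤ δ * (n : ℝ) ^ 6 ∧ H.card = m}

theorem patterns_eq {n : ℕ} (H : Finset (Finset (Fin n))) :
    patterns H = Pool.Agent.J6H5.Sg.patterns H := by
  classical
  unfold patterns Pool.Agent.J6H5.Sg.patterns
  rw [Nat.card_eq_fintype_card, Fintype.card_subtype]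
  congr 1

theorem giraud_eq {n : ℕ} (A : Finset (Fin n)) (D : Fin n → Fin n → Bool) :
    giraud A D = Pool.Agent.W846.F2.gr A (univ.filter fun p => D p.1 p.2 = true) := by
  unfold giraud Pool.Agent.W846.F2.gr Pool.Agent.W846.F2.cel
  refine filter_congr fun Q _ => ?_
  have h : ((Q ∩ A) ×ˢ (Q \ A)).filter (fun p => D p.1 p.2 = true) =
      ((Q ∩ A) ×ˢ (Q \ A)) ∩ univ.filter fun p => D p.1 p.2 = true := by
    ext p
    simp only [mem_filter, mem_inter, mem_univ, true_and]
  rw [h]

theorem giraud_girG {n : ℕ} (A : Finset (Fin n)) (D : Fin n → Fin n → Bool) :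
    Pool.Agent.J6H5.St.girG A D = giraud A D := by
  unfold giraud Pool.Agent.J6H5.St.girG
  refine filter_congr fun Q _ => ?_
  rfl

/-- (1) There is a constant `C` such that every 4-graph `H` on `n ≥ 1` vertices without a complete 4-graph on five vertices
differs from one of the 4-graphs `giraud A D` in at most `C n^4 (11/16 + p + 16/n - d)` sets, where `d = 24 |H| / n^4` and
`p = 720 (patterns H) / n^6`. In particular `d ≤ 11/16 + p + 16/n`. (2) The 4-graphs `giraud A D` are without complete
4-graphs on five vertices and without the pattern. (3) For every sequence `δ n ≥ 0` which tends to `0` the largest density of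
an `H` with at most `δ n * n^6` copies of the pattern tends to `11/16`. -/
theorem result :
    (∃ C : ℝ, 0 < C ∧ ∀ (n : ℕ) (H : Finset (Finset (Fin n))), 1 ≤ n → H ⊆ powersetCard 4 univ → CliqueFree H →
      ∃ (A : Finset (Fin n)) (D : Fin n → Fin n → Bool), ((symmDiff H (giraud A D)).card : ℝ) ≤
        C * (n : ℝ) ^ 4 * (11 / 16 + 720 * (patterns H : ℝ) / (n : ℝ) ^ 6 + 16 / (n : ℝ)
          - 24 * (H.card : ℝ) / (n : ℝ) ^ 4)) ∧
    (∀ (n : ℕ) (A : Finset (Fin n)) (D : Fin n → Fin n → Bool),
      giraud A D ⊆ powersetCard 4 univ ∧ CliqueFree (giraud A D) ∧ patterns (giraud A D) = 0) ∧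
    (∀ δ : ℕ → ℝ, (∀ n, 0 ≤ δ n) → Tendsto δ atTop (𝓝 0) →
      Tendsto (fun n : ℕ => (largest (δ n) n : ℝ) / (n.choose 4 : ℝ)) atTop (𝓝 (11 / 16))) := by
  refine ⟨?_, ?_, ?_⟩
  · obtain ⟨C, hC0, hC⟩ := Pool.Agent.J6H5.St.stab
    refine ⟨C, hC0, fun n H hn hH hK => ?_⟩
    obtain ⟨A, D, h⟩ := hC n H hn hH hK
    refine ⟨A, D, ?_⟩
    rw [giraud_girG, ← patterns_eq] at h
    exact h
  · intro n A D
    rw [giraud_eq]
    exact ⟨Pool.Agent.J6H5.Sg.gr_sub _ _, Pool.Agent.J6H5.Sg.gr_cliqueFree _ _, by
      rw [patterns_eq]; exact Pool.Agent.J6H5.Sg.gr_zero _ _⟩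
  · intro δ h0 hδ
    have h := Pool.Agent.J6H5.Sg.lim
      (fun n H => CliqueFree H ∧ (patterns H : ℝ) ≤ δ n * (n : ℝ) ^ 6)
      (fun n A D => ⟨Pool.Agent.J6H5.Sg.gr_cliqueFree A D, by
        rw [patterns_eq, Pool.Agent.J6H5.Sg.gr_zero, Nat.cast_zero]
        exact mul_nonneg (h0 n) (by positivity)⟩)
      (fun n H hH => hH.1) δ hδ (fun n H hH => by
        rw [← patterns_eq]
        exact hH.2)
    refine h.congr fun n => ?_
    have e : Pool.Agent.J6H5.Sg.largest (fun n H => CliqueFree H ∧ (patterns H : ℝ) ≤ δ n * (n : ℝ) ^ 6) n =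
        largest (δ n) n := by
      unfold Pool.Agent.J6H5.Sg.largest largest
      congr 1
      ext m
      simp only [Set.mem_ofPred_eq, and_assoc]
    rw [e]

end Pool.Agent.Results.MP_a4d830_co.GluedTetrahedraStability
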