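import Pool.Agent.J6H90.DL.Turan
import Pool.Agent.H688R3.TuranGenLimit

/-!
# A constant factor beyond de Caen's bound in the linear range `m ≥ (1 + η) r`

The notions are those of `Pool.Agent.H120R2.CliqueDefs`: `ex n r m = ex(n, K_m^r)` and
`turanDensity r m = π(K_m^r)`, the limit of `ex n r m / C(n, r)`.  De Caen's inequality is
`C(m-1, r-1) (1 - π(K_m^r)) ≥ 1`.  We improve it by the absolute constant factor `1 + 5 / 10 ^ 10` for
all `r ≥ 3` and `m ≥ 10 ^ 22 r`; together with the gain of the starting library, which is positive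
when `(r-2)/(m-r)` is not an integer but tends to `0` with `r / m`, this gives a constant factor for
every `m ≥ (1 + η) r` for which `(r-2)/(m-r)` has distance at least `η` from `1, 2, 3, ...`, in
particular for all `m ≥ (2 + η) r`.

Outline (`Pool.Agent.J6H90.DC`, `Pool.Agent.J6H90.DL`).  Let `H` be a family of `r`-subsets of an
`n`-set with a member in every `m`-set, and call a set without members of `H` independent.

(A) Choose a random independent set `S` with probability proportional to `z^|S|` (hard-core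
measure), let `k` be its mean size and `n e` the mean number of points which cannot be added.  By a
Cauchy-Schwarz inequality with the test field `η = 1 - θ min(δ, 2 E δ) / E δ`, `δ` the degree of a
point in the conflict graph of `S`, the quantity `(r-1) log k - (1 + 8/10^10) log e` increases with
`z` as long as `1/4 ≤ e ≤ 3/4`.  (This is because `δ` cannot be almost constant: consider triples
`x, y, w` such that only `S + x + y + w` contains a member of `H`.)  Hence `k` grows by a factor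
`3^((1 + 8/10^10) / (r-1))` while `e` grows from `1/4` to `3/4`.

(B) Let `e_k` be the mean proportion of points which cannot be added to a random independent set with
exactly `k` elements.  De Caen's recursion says that `e_k / C(k, r-1)` decreases with `k`; its values
for `k = r - 1` and for the largest independent sets are the normalised density of `H` and at least
`(1 - m/n) / C(m-1, r-1)`.  If the density is less than `(1 + 5/10^10) / C(m-1, r-1)`, then all `e_k`
are known up to this factor.  For `m ≥ 10^22 r` a Stein type identity for the size of `S` shows that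
the mean size cannot be smaller than the size at which `e_k` is `1/4`, up to `5 10^11` elements, and
by convexity it is at most the size at which `e_k` is `3/4`.  So `k` grows only by a factor
`3^(1/(r-1))` up to a smaller error, which contradicts (A).
-/

open Filter Topology

namespace Pool.Agent.Results.MP_a4d830_co.LinearRange

open Pool.Agent.H120R2.Clique

/-- (1) For all `r ≥ 3`, `m ≥ 10^22 r`, `n ≥ 10^12 m`:
`ex(n, K_m^r) ≤ (1 - (1 + 5/10^10) / C(m-1, r-1)) C(n, r)`.
(2) For every `η > 0` there is `c > 0` with `π(K_m^r) ≤ 1 - (1 + c) / C(m-1, r-1)` for all `r ≥ 3` and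
`m ≥ (1 + η) r` such that `|(r-2)/(m-r) - j| ≥ η` for all integers `j ≥ 1`.
(3) For every `η > 0` there is `c > 0` with `π(K_m^r) ≤ 1 - (1 + c) / C(m-1, r-1)` for all `r ≥ 3` and
`m ≥ (2 + η) r`.
(4) For all `m > r ≥ 3` and all `n ≥ 8 (m - 1)`:
`ex(n, K_m^r) ≤ C(n, r) - (1 + 8/10^10) n^(r-1) (n - 2 (m - 1)) / (r (m - 1)^(r-1))`.
(5) For all `m > r ≥ 3` the limit `π(K_m^r)` exists and
`π(K_m^r) ≤ 1 - (1 + 8/10^10) (r-1)! / (m - 1)^(r-1)`.
(6) For every `r ≥ 3` the limit `L` of `(m - 1)^(r-1) (1 - π(K_m^r))` as `m → ∞` exists, and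
`L ≥ (1 + 8/10^10) (r-1)!`. -/
theorem result :
    (∀ r m n : ℕ, 3 ≤ r → 10 ^ 22 * r ≤ m → 10 ^ 12 * m ≤ n →
      (ex n r m : ℝ) ≤
        (1 - (1 + 5 / 10 ^ 10) / ((m - 1).choose (r - 1) : ℝ)) * (n.choose r : ℝ)) ∧
    (∀ η : ℝ, 0 < η → ∃ c : ℝ, 0 < c ∧ ∀ r m : ℕ, 3 ≤ r → (1 + η) * (r : ℝ) ≤ m →
      (∀ j : ℕ, 1 ≤ j → η ≤ |((r : ℝ) - 2) / (m - r) - j|) →
      turanDensity r m ≤ 1 - (1 + c) / ((m - 1).choose (r - 1) : ℝ)) ∧
    (∀ η : ℝ, 0 < η → ∃ c : ℝ, 0 < c ∧ ∀ r m : ℕ, 3 ≤ r → (2 + η) * (r : ℝ) ≤ m →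
      turanDensity r m ≤ 1 - (1 + c) / ((m - 1).choose (r - 1) : ℝ)) ∧
    (∀ r m n : ℕ, 3 ≤ r → r < m → 8 * (m - 1) ≤ n →
      (ex n r m : ℝ) ≤ (n.choose r : ℝ) - (1 + 8 / 10 ^ 10) *
        ((n : ℝ) ^ (r - 1) * ((n : ℝ) - 2 * ((m : ℝ) - 1))) / (r * ((m : ℝ) - 1) ^ (r - 1))) ∧
    (∀ r m : ℕ, 3 ≤ r → r < m →
      Tendsto (fun n : ℕ => (ex n r m : ℝ) / (n.choose r : ℝ)) atTop (𝓝 (turanDensity r m)) ∧
      turanDensity r m ≤ 1 - (1 + 8 / 10 ^ 10) * ((r - 1).factorial : ℝ) /
        ((m : ℝ) - 1) ^ (r - 1)) ∧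
    (∀ r : ℕ, 3 ≤ r → ∃ L : ℝ,
      Tendsto (fun m : ℕ => ((m : ℝ) - 1) ^ (r - 1) * (1 - turanDensity r m)) atTop (𝓝 L) ∧
      (1 + 8 / 10 ^ 10) * ((r - 1).factorial : ℝ) ≤ L) := by
  have e : (1 + 8 / 10 ^ 10 : ℝ) = 1 + 8 / 10000000000 := by norm_num
  rw [e]
  refine ⟨fun r m n hr hm hn => Pool.Agent.J6H90.DL.ex_le hr (by omega) (by omega),
    fun η hη => Pool.Agent.J6H90.DL.density_unif hη,
    fun η hη => Pool.Agent.J6H90.DL.density_two hη,
    fun r m n hr hm hn => Pool.Agent.J6H90.DC.ex_le hr hm hn,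
    fun r m hr hm => ⟨ratio_tendsto r m, Pool.Agent.J6H90.DC.density_le hr hm⟩, fun r hr => ?_⟩
  obtain ⟨r₀, h⟩ := Pool.Agent.H688R3.TuranGen.main
  obtain ⟨L, h1, h2, h3, h4, h5⟩ := h r hr
  refine ⟨L, h3, ?_⟩
  refine ge_of_tendsto h3 ?_
  filter_upwards [eventually_gt_atTop r] with m hm
  have hd := Pool.Agent.J6H90.DC.density_le hr hm
  have hm0 : (0 : ℝ) < (m : ℝ) - 1 := by
    have : 3 < m := by omega
    have : (3 : ℝ) < m := by exact_mod_cast this
    linarith
  have hp : 0 < ((m : ℝ) - 1) ^ (r - 1) := pow_pos hm0 _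
  have h6 : (1 + 8 / 10000000000) * ((r - 1).factorial : ℝ) / ((m : ℝ) - 1) ^ (r - 1)
      ≤ 1 - turanDensity r m := by linarith
  rw [div_le_iff₀ hp] at h6
  linarith

end Pool.Agent.Results.MP_a4d830_co.LinearRange
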